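import Mathlib

/-!
# Two sequential spaces whose product is a `k_R`-space but not a `k`-space (MP_a29c66_gt)

`X` is the sequential fan; `Y = {y₀} ∪ (ω × Ψ)` with `Ψ` the Mrówka space of a maximal almost
disjoint family, where the tails `{y₀} ∪ {n ≥ N} × Ψ` form a base at `y₀`.
-/

namespace Pool.Agent.Results.MP_a29c66_gt.KRNotK

open Set Topology Filter

/-- `Z` is a `k`-space: `F ⊆ Z` is closed whenever `F ∩ K` is closed in `K` for every compact
`K ⊆ Z`. -/
def IsKSpace (Z : Type) [TopologicalSpace Z] : Prop :=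
  ∀ F : Set Z, (∀ K : Set Z, IsCompact K → ∃ C : Set Z, IsClosed C ∧ F ∩ K = C ∩ K) → IsClosed F

/-- `Z` is a `k_R`-space: `Z` is Tychonoff and every `f : Z → ℝ` with continuous restrictions to
the compact subspaces of `Z` is continuous. -/
def IsKRSpace (Z : Type) [TopologicalSpace Z] : Prop :=
  T35Space Z ∧ ∀ f : Z → ℝ, (∀ K : Set Z, IsCompact K → ContinuousOn f K) → Continuous f

/-! ### A maximal almost disjoint family -/

/-- the columns of `ℕ ≃ ℕ × ℕ` -/
def col (m : ℕ) : Set ℕ := range fun k => Nat.pair m k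

theorem col_infinite (m : ℕ) : (col m).Infinite :=
  infinite_range_of_injective fun _ _ h => (Nat.pair_eq_pair.1 h).2

theorem col_disj {m n : ℕ} (h : m ≠ n) : Disjoint (col m) (col n) := by
  rw [Set.disjoint_left]
  rintro _ ⟨k, rfl⟩ ⟨l, hl⟩
  exact h (Nat.pair_eq_pair.1 hl).1.symm

theorem col_injective : Function.Injective col := by
  intro m n h
  by_contra hne
  have h1 := col_disj hne
  rw [h, disjoint_self] at h1
  exact (col_infinite n).nonempty.ne_empty h1

/-- almost disjoint families of infinite sets -/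
def IsAD (𝒜 : Set (Set ℕ)) : Prop :=
  (∀ A ∈ 𝒜, A.Infinite) ∧ ∀ A ∈ 𝒜, ∀ B ∈ 𝒜, A ≠ B → (A ∩ B).Finite

theorem exists_mad : ∃ 𝒜 : Set (Set ℕ), IsAD 𝒜 ∧ (∀ m, col m ∈ 𝒜) ∧
    ∀ M : Set ℕ, M.Infinite → ∃ B ∈ 𝒜, (B ∩ M).Infinite := by
  have h0 : IsAD (range col) := by
    refine ⟨?_, ?_⟩
    · rintro _ ⟨m, rfl⟩
      exact col_infinite m
    · rintro _ ⟨m, rfl⟩ _ ⟨n, rfl⟩ hne
      have : m ≠ n := fun h => hne (by rw [h])
      rw [(col_disj this).inter_eq]
      exact Set.finite_empty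
  obtain ⟨𝒜, hsub, hmax⟩ := zorn_subset_nonempty {𝒜 | IsAD 𝒜} (by
    intro c hc hchain hne
    refine ⟨⋃₀ c, ⟨?_, ?_⟩, fun s hs => subset_sUnion_of_mem hs⟩
    · rintro A ⟨𝒜, h𝒜, hA⟩
      exact (hc h𝒜).1 A hA
    · rintro A ⟨𝒜, h𝒜, hA⟩ B ⟨ℬ, hℬ, hB⟩ hAB
      rcases hchain.total h𝒜 hℬ with h | h
      · exact (hc hℬ).2 A (h hA) B hB hAB
      · exact (hc h𝒜).2 A hA B (h hB) hAB) (range col) h0
  refine ⟨𝒜, hmax.prop, fun m => hsub ⟨m, rfl⟩, fun M hM => ?_⟩
  by_contra hcon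
  push Not at hcon
  have h1 : IsAD (insert M 𝒜) := by
    refine ⟨?_, ?_⟩
    · rintro A (rfl | hA)
      · exact hM
      · exact hmax.prop.1 A hA
    · rintro A (rfl | hA) B (rfl | hB) hAB
      · exact absurd rfl hAB
      · have := hcon B hB
        rwa [inter_comm] at this
      · exact hcon A hA
      · exact hmax.prop.2 A hA B hB hAB
  have h2 : M ∈ 𝒜 := hmax.le_of_ge h1 (subset_insert M 𝒜) (mem_insert M 𝒜)
  have h3 := hcon M h2
  rw [inter_self] at h3
  exact hM h3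

/-- the maximal almost disjoint family -/
def MAD : Set (Set ℕ) := exists_mad.choose

theorem mad_ad : IsAD MAD := exists_mad.choose_spec.1
theorem mad_col (m : ℕ) : col m ∈ MAD := exists_mad.choose_spec.2.1 m
theorem mad_max (M : Set ℕ) (hM : M.Infinite) : ∃ B ∈ MAD, (B ∩ M).Infinite :=
  exists_mad.choose_spec.2.2 M hM

/-! ### The sequential fan `X` -/

/-- the sequential fan -/
inductive X : Type
  | inf : X
  | pt : ℕ → ℕ → X

instance : TopologicalSpace X where
  IsOpen U := X.inf ∈ U → ∀ i, ∀ᶠ m in atTop, X.pt i m ∈ U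
  isOpen_univ := fun _ _ => by simp
  isOpen_inter := fun U V hU hV h i => (hU h.1 i).and (hV h.2 i)
  isOpen_sUnion := by
    rintro 𝒮 h𝒮 ⟨U, hU, h⟩ i
    exact (h𝒮 U hU h i).mono fun m hm => ⟨U, hU, hm⟩

theorem X.isOpen_iff (U : Set X) : IsOpen U ↔ (X.inf ∈ U → ∀ i, ∀ᶠ m in atTop, X.pt i m ∈ U) :=
  Iff.rfl

theorem X.isOpen_of_notMem {U : Set X} (h : X.inf ∉ U) : IsOpen U := fun h' => absurd h' h

theorem X.clopen_basis (x : X) (U : Set X) (hU : IsOpen U) (hx : x ∈ U) :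
    ∃ C : Set X, IsClopen C ∧ x ∈ C ∧ C ⊆ U := by
  rcases x with _ | ⟨i, m⟩
  · refine ⟨U, ⟨?_, hU⟩, hx, subset_rfl⟩
    rw [← isOpen_compl_iff]
    exact X.isOpen_of_notMem (fun h => h hx)
  · refine ⟨{X.pt i m}, ⟨?_, X.isOpen_of_notMem (by simp)⟩, rfl, by simpa using hx⟩
    rw [← isOpen_compl_iff, X.isOpen_iff]
    intro _ j
    filter_upwards [eventually_gt_atTop m] with k hk
    intro h
    cases h
    exact lt_irrefl _ hk

theorem X.isClosed_singleton (x : X) : IsClosed ({x} : Set X) := by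
  rcases x with _ | ⟨i, m⟩
  · rw [← isOpen_compl_iff]
    exact X.isOpen_of_notMem (by simp)
  · rw [← isOpen_compl_iff, X.isOpen_iff]
    intro _ j
    filter_upwards [eventually_gt_atTop m] with k hk
    intro h
    cases h
    exact lt_irrefl _ hk

instance : T1Space X := ⟨X.isClosed_singleton⟩

instance : CompletelyRegularSpace X := by
  apply CompletelyRegularSpace.of_isTopologicalBasis_clopens
  refine TopologicalSpace.isTopologicalBasis_of_isOpen_of_nhds (fun s hs => hs.isOpen) ?_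
  intro x U hx hU
  obtain ⟨C, hC, hxC, hCU⟩ := X.clopen_basis x U hU hx
  exact ⟨C, hC, hxC, hCU⟩

instance : SequentialSpace X := by
  refine ⟨fun A hA => ?_⟩
  rw [← isOpen_compl_iff, X.isOpen_iff]
  intro hinf i
  by_contra hcon
  have h1 : ∃ᶠ m in atTop, X.pt i m ∈ A := by
    rw [Filter.not_eventually] at hcon
    exact hcon.mono fun m hm => not_not.1 hm
  obtain ⟨φ, hφ, hφA⟩ := extraction_of_frequently_atTop h1
  apply hinf
  refine hA hφA ?_
  rw [tendsto_nhds]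
  intro U hU hx
  exact hφ.tendsto_atTop.eventually ((X.isOpen_iff U).1 hU hx i)

/-! ### The space `Y` -/

/-- the space `{y₀} ∪ (ω × Ψ)` -/
inductive Y : Type
  | zero : Y
  | nat : ℕ → ℕ → Y
  | pt : ℕ → MAD → Y

instance : TopologicalSpace Y where
  IsOpen U := (Y.zero ∈ U → ∃ N, ∀ n ≥ N, (∀ k, Y.nat n k ∈ U) ∧ ∀ B, Y.pt n B ∈ U) ∧
    ∀ n B, Y.pt n B ∈ U → {k | k ∈ B.1 ∧ Y.nat n k ∉ U}.Finite
  isOpen_univ := ⟨fun _ => ⟨0, fun n _ => ⟨fun _ => mem_univ _, fun _ => mem_univ _⟩⟩,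
    fun n B _ => by simp⟩
  isOpen_inter := by
    rintro U V ⟨hU1, hU2⟩ ⟨hV1, hV2⟩
    refine ⟨fun h => ?_, fun n B h => ?_⟩
    · obtain ⟨N, hN⟩ := hU1 h.1
      obtain ⟨M, hM⟩ := hV1 h.2
      refine ⟨max N M, fun n hn => ⟨fun k => ⟨?_, ?_⟩, fun B => ⟨?_, ?_⟩⟩⟩
      · exact (hN n ((le_max_left _ _).trans hn)).1 k
      · exact (hM n ((le_max_right _ _).trans hn)).1 k
      · exact (hN n ((le_max_left _ _).trans hn)).2 B
      · exact (hM n ((le_max_right _ _).trans hn)).2 B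
    · refine ((hU2 n B h.1).union (hV2 n B h.2)).subset ?_
      rintro k ⟨hk, hk'⟩
      by_cases h : Y.nat n k ∈ U
      · exact Or.inr ⟨hk, fun h' => hk' ⟨h, h'⟩⟩
      · exact Or.inl ⟨hk, h⟩
  isOpen_sUnion := by
    rintro 𝒮 h𝒮
    refine ⟨?_, ?_⟩
    · rintro ⟨U, hU, h⟩
      obtain ⟨N, hN⟩ := (h𝒮 U hU).1 h
      exact ⟨N, fun n hn => ⟨fun k => ⟨U, hU, (hN n hn).1 k⟩, fun B => ⟨U, hU, (hN n hn).2 B⟩⟩⟩
    · rintro n B ⟨U, hU, h⟩
      refine ((h𝒮 U hU).2 n B h).subset ?_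
      rintro k ⟨hk, hk'⟩
      exact ⟨hk, fun h => hk' ⟨U, hU, h⟩⟩

theorem Y.isOpen_iff (U : Set Y) : IsOpen U ↔
    ((Y.zero ∈ U → ∃ N, ∀ n ≥ N, (∀ k, Y.nat n k ∈ U) ∧ ∀ B, Y.pt n B ∈ U) ∧
    ∀ n B, Y.pt n B ∈ U → {k | k ∈ B.1 ∧ Y.nat n k ∉ U}.Finite) := Iff.rfl

/-- basic neighbourhood of `pt n B` -/
def W (n : ℕ) (B : MAD) (j : ℕ) : Set Y := insert (Y.pt n B) ((Y.nat n) '' {k | k ∈ B.1 ∧ j ≤ k})

/-- basic neighbourhood of `zero` -/
def Tl (N : ℕ) : Set Y :=
  {y | y = Y.zero ∨ (∃ n ≥ N, ∃ k, y = Y.nat n k) ∨ ∃ n ≥ N, ∃ B, y = Y.pt n B}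

theorem isClopen_W (n : ℕ) (B : MAD) (j : ℕ) : IsClopen (W n B j) := by
  constructor
  · rw [← isOpen_compl_iff, Y.isOpen_iff]
    refine ⟨fun _ => ⟨n + 1, fun m hm => ⟨fun k h => ?_, fun C h => ?_⟩⟩, fun m C h => ?_⟩
    · rcases h with h | ⟨i, -, h⟩
      · cases h
      · cases h
        omega
    · rcases h with h | ⟨i, -, h⟩
      · cases h
        omega
      · cases h
    · by_cases hmn : m = n
      · subst hmn
        have hCB : C.1 ≠ B.1 := by
          intro h'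
          exact h (Or.inl (by rw [Subtype.ext h']))
        refine (mad_ad.2 C.1 C.2 B.1 B.2 hCB).subset ?_
        rintro k ⟨hk, hk'⟩
        rw [notMem_compl_iff] at hk'
        rcases hk' with hk' | ⟨i, hi, hik⟩
        · cases hk'
        · cases hik
          exact ⟨hk, hi.1⟩
      · refine Set.finite_empty.subset ?_
        rintro k ⟨-, hk'⟩
        rw [notMem_compl_iff] at hk'
        rcases hk' with hk' | ⟨i, hi, hik⟩
        · cases hk'
        · cases hik
          exact hmn rfl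
  · rw [Y.isOpen_iff]
    refine ⟨?_, ?_⟩
    · rintro (h | ⟨i, -, h⟩) <;> cases h
    · rintro m C (h | ⟨i, -, h⟩)
      · cases h
        refine (Set.finite_Iio j).subset ?_
        rintro k ⟨hk, hk'⟩
        by_contra h
        exact hk' (Or.inr ⟨k, ⟨hk, not_lt.1 h⟩, rfl⟩)
      · cases h

theorem isClopen_Tl (N : ℕ) : IsClopen (Tl N) := by
  constructor
  · rw [← isOpen_compl_iff, Y.isOpen_iff]
    refine ⟨fun h => absurd (Or.inl rfl) h, fun n B h => ?_⟩
    refine Set.finite_empty.subset ?_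
    rintro k ⟨-, hk'⟩
    rw [notMem_compl_iff] at hk'
    rcases hk' with hk' | ⟨m, hm, l, hl⟩ | ⟨m, hm, C, hC⟩
    · cases hk'
    · cases hl
      exact h (Or.inr (Or.inr ⟨n, hm, B, rfl⟩))
    · cases hC
  · rw [Y.isOpen_iff]
    refine ⟨fun _ => ⟨N, fun n hn => ⟨fun k => Or.inr (Or.inl ⟨n, hn, k, rfl⟩),
      fun B => Or.inr (Or.inr ⟨n, hn, B, rfl⟩)⟩⟩, fun n B h => ?_⟩
    refine Set.finite_empty.subset ?_
    rintro k ⟨-, hk'⟩
    apply hk'
    rcases h with h | ⟨m, hm, l, hl⟩ | ⟨m, hm, C, hC⟩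
    · cases h
    · cases hl
    · cases hC
      exact Or.inr (Or.inl ⟨n, hm, k, rfl⟩)

theorem isClopen_nat (n k : ℕ) : IsClopen ({Y.nat n k} : Set Y) := by
  constructor
  · rw [← isOpen_compl_iff, Y.isOpen_iff]
    refine ⟨fun _ => ⟨n + 1, fun m hm => ⟨fun l h => ?_, fun C h => ?_⟩⟩, fun m C _ => ?_⟩
    · cases h
      omega
    · cases h
    · refine (Set.finite_singleton k).subset ?_
      rintro l ⟨-, hl⟩
      rw [notMem_compl_iff] at hl
      cases hl
      rfl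
  · rw [Y.isOpen_iff]
    refine ⟨fun h => ?_, fun m C h => ?_⟩
    · cases h
    · cases h

theorem Y.clopen_basis (y : Y) (U : Set Y) (hU : IsOpen U) (hy : y ∈ U) :
    ∃ C : Set Y, IsClopen C ∧ y ∈ C ∧ C ⊆ U := by
  rcases y with _ | ⟨n, k⟩ | ⟨n, B⟩
  · obtain ⟨N, hN⟩ := ((Y.isOpen_iff U).1 hU).1 hy
    refine ⟨Tl N, isClopen_Tl N, Or.inl rfl, ?_⟩
    rintro y (rfl | ⟨n, hn, k, rfl⟩ | ⟨n, hn, B, rfl⟩)
    · exact hy
    · exact (hN n hn).1 k
    · exact (hN n hn).2 B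
  · exact ⟨{Y.nat n k}, isClopen_nat n k, rfl, by simpa using hy⟩
  · obtain ⟨N, hN⟩ := (((Y.isOpen_iff U).1 hU).2 n B hy).bddAbove
    refine ⟨W n B (N + 1), isClopen_W n B _, Or.inl rfl, ?_⟩
    rintro y (rfl | ⟨k, ⟨hk, hk'⟩, rfl⟩)
    · exact hy
    · by_contra h
      have : k ≤ N := hN ⟨hk, h⟩
      omega

theorem Y.isClosed_singleton (y : Y) : IsClosed ({y} : Set Y) := by
  rcases y with _ | ⟨n, k⟩ | ⟨n, B⟩
  · have h : ({Y.zero} : Set Y) = ⋂ N, Tl N := by
      ext y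
      simp only [mem_singleton_iff, mem_iInter]
      constructor
      · rintro rfl N
        exact Or.inl rfl
      · intro h
        rcases y with _ | ⟨n, k⟩ | ⟨n, B⟩
        · rfl
        · rcases h (n + 1) with h | ⟨m, hm, l, hl⟩ | ⟨m, hm, C, hC⟩
          · cases h
          · cases hl
            omega
          · cases hC
        · rcases h (n + 1) with h | ⟨m, hm, l, hl⟩ | ⟨m, hm, C, hC⟩
          · cases h
          · cases hl
          · cases hC
            omega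
    rw [h]
    exact isClosed_iInter fun N => (isClopen_Tl N).isClosed
  · exact (isClopen_nat n k).isClosed
  · have h : ({Y.pt n B} : Set Y) = ⋂ j, W n B j := by
      ext y
      simp only [mem_singleton_iff, mem_iInter]
      constructor
      · rintro rfl N
        exact Or.inl rfl
      · intro h
        rcases h 0 with h0 | ⟨k, -, hk⟩
        · exact h0
        · rcases h (k + 1) with h1 | ⟨l, ⟨-, hl⟩, hl'⟩
          · exact h1
          · rw [← hk] at hl'
            cases hl'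
            omega
    rw [h]
    exact isClosed_iInter fun N => (isClopen_W n B N).isClosed

instance : T1Space Y := ⟨Y.isClosed_singleton⟩

instance : CompletelyRegularSpace Y := by
  apply CompletelyRegularSpace.of_isTopologicalBasis_clopens
  refine TopologicalSpace.isTopologicalBasis_of_isOpen_of_nhds (fun s hs => hs.isOpen) ?_
  intro x U hx hU
  obtain ⟨C, hC, hxC, hCU⟩ := Y.clopen_basis x U hU hx
  exact ⟨C, hC, hxC, hCU⟩

instance : SequentialSpace Y := by
  refine ⟨fun A hA => ?_⟩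
  rw [← isOpen_compl_iff, Y.isOpen_iff]
  refine ⟨fun h0 => ?_, fun n B hB => ?_⟩
  · by_contra hcon
    push Not at hcon
    have h1 : ∀ N, ∃ y ∈ A, y ∈ Tl N := by
      intro N
      obtain ⟨n, hn, h⟩ := hcon N
      by_cases hk : ∀ k, Y.nat n k ∈ Aᶜ
      · obtain ⟨B, hB⟩ := h hk
        exact ⟨Y.pt n B, not_not.1 hB, Or.inr (Or.inr ⟨n, hn, B, rfl⟩)⟩
      · push Not at hk
        obtain ⟨k, hk⟩ := hk
        exact ⟨Y.nat n k, not_not.1 hk, Or.inr (Or.inl ⟨n, hn, k, rfl⟩)⟩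
    choose y hyA hyT using h1
    apply h0
    refine hA hyA ?_
    rw [tendsto_nhds]
    intro U hU hz
    obtain ⟨N, hN⟩ := ((Y.isOpen_iff U).1 hU).1 hz
    filter_upwards [eventually_ge_atTop N] with m hm
    show y m ∈ U
    rcases hyT m with h | ⟨n, hn, k, h⟩ | ⟨n, hn, B, h⟩
    · rw [h]
      exact hz
    · rw [h]
      exact (hN n (hm.trans hn)).1 k
    · rw [h]
      exact (hN n (hm.trans hn)).2 B
  · by_contra hinf
    have h1 : ∃ᶠ k in atTop, k ∈ B.1 ∧ Y.nat n k ∉ Aᶜ := Nat.frequently_atTop_iff_infinite.2 hinf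
    obtain ⟨φ, hφ, hφA⟩ := extraction_of_frequently_atTop h1
    apply hB
    refine hA (fun m => not_not.1 (hφA m).2) (x := fun m => Y.nat n (φ m)) ?_
    rw [tendsto_nhds]
    intro U hU hz
    obtain ⟨N, hN⟩ := (((Y.isOpen_iff U).1 hU).2 n B hz).bddAbove
    filter_upwards [eventually_gt_atTop N] with m hm
    by_contra h
    have h2 : φ m ≤ N := hN ⟨(hφA m).1, h⟩
    have h3 := hφ.id_le m
    simp only [id] at h3
    omega

/-- every sequence of isolated points of `Y` has a subsequence converging in `Y`. -/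
theorem exists_subseq (d : ℕ → ℕ × ℕ) : ∃ (y : Y) (φ : ℕ → ℕ), StrictMono φ ∧
    Tendsto (fun j => Y.nat (d (φ j)).1 (d (φ j)).2) atTop (𝓝 y) := by
  by_cases hun : ∀ N, ∃ᶠ j in atTop, N ≤ (d j).1
  · obtain ⟨φ, hφ, hφd⟩ := extraction_forall_of_frequently hun
    refine ⟨Y.zero, φ, hφ, ?_⟩
    rw [tendsto_nhds]
    intro U hU hz
    obtain ⟨N, hN⟩ := ((Y.isOpen_iff U).1 hU).1 hz
    filter_upwards [eventually_ge_atTop N] with m hm
    exact (hN _ (hm.trans (hφd m))).1 _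
  · push Not at hun
    obtain ⟨N, hN⟩ := hun
    have h1 : ∃ n, ∃ᶠ j in atTop, (d j).1 = n := by
      by_contra hcon
      push Not at hcon
      have h2 : ∀ᶠ j in atTop, ∀ n ∈ Set.Iio N, (d j).1 ≠ n :=
        (Set.finite_Iio N).eventually_all.2 fun n _ => hcon n
      obtain ⟨j, hj1, hj2⟩ := (hN.and h2).exists
      exact hj2 _ hj1 rfl
    obtain ⟨n, hn⟩ := h1
    by_cases hk : ∃ k, ∃ᶠ j in atTop, d j = (n, k)
    · obtain ⟨k, hk⟩ := hk
      obtain ⟨φ, hφ, hφd⟩ := extraction_of_frequently_atTop hk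
      refine ⟨Y.nat n k, φ, hφ, ?_⟩
      have : (fun j => Y.nat (d (φ j)).1 (d (φ j)).2) = fun _ => Y.nat n k := by
        funext j
        rw [hφd j]
      rw [this]
      exact tendsto_const_nhds
    · push Not at hk
      have hk' : ∀ k, ∀ᶠ j in atTop, d j ≠ (n, k) := hk
      set M : Set ℕ := {k | ∃ j, d j = (n, k)} with hM
      have hMinf : M.Infinite := by
        intro hfin
        have h2 : ∀ᶠ j in atTop, ∀ k ∈ M, d j ≠ (n, k) := hfin.eventually_all.2 fun k _ => hk' k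
        obtain ⟨j, hj1, hj2⟩ := (hn.and_eventually h2).exists
        have h3 : d j = (n, (d j).2) := Prod.ext hj1 rfl
        exact hj2 _ ⟨j, h3⟩ h3
      obtain ⟨B, hB, hBM⟩ := mad_max M hMinf
      have h3 : ∀ K, ∃ᶠ j in atTop, (d j).1 = n ∧ (d j).2 ∈ B ∧ K ≤ (d j).2 := by
        intro K hcon
        obtain ⟨J, hJ⟩ := eventually_atTop.1 hcon
        apply hBM
        refine ((Set.finite_Iio K).union ((Set.finite_Iio J).image fun j => (d j).2)).subset ?_
        rintro k ⟨hkB, j, hj⟩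
        by_cases hkK : k < K
        · exact Or.inl hkK
        · right
          refine ⟨j, ?_, by simp only [hj]⟩
          by_contra hjJ
          refine hJ j (not_lt.1 hjJ) ?_
          simp only [hj]
          exact ⟨trivial, hkB, not_lt.1 hkK⟩
      obtain ⟨φ, hφ, hφd⟩ := extraction_forall_of_frequently h3
      refine ⟨Y.pt n ⟨B, hB⟩, φ, hφ, ?_⟩
      rw [tendsto_nhds]
      intro U hU hz
      obtain ⟨N', hN'⟩ := (((Y.isOpen_iff U).1 hU).2 n ⟨B, hB⟩ hz).bddAbove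
      filter_upwards [eventually_gt_atTop N'] with m hm
      by_contra h
      have h4 : (d (φ m)).2 ≤ N' := by
        apply hN'
        refine ⟨(hφd m).2.1, ?_⟩
        intro h5
        apply h
        show Y.nat (d (φ m)).1 (d (φ m)).2 ∈ U
        rw [(hφd m).1]
        exact h5
      have h6 := (hφd m).2.2
      omega

/-- the isolated points are dense -/
theorem dense_nat : Dense (range fun p : ℕ × ℕ => Y.nat p.1 p.2) := by
  rw [dense_iff_inter_open]
  intro U hU ⟨y, hy⟩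
  rcases y with _ | ⟨n, k⟩ | ⟨n, B⟩
  · obtain ⟨N, hN⟩ := ((Y.isOpen_iff U).1 hU).1 hy
    exact ⟨Y.nat N 0, (hN N le_rfl).1 0, ⟨(N, 0), rfl⟩⟩
  · exact ⟨Y.nat n k, hy, ⟨(n, k), rfl⟩⟩
  · have h1 := ((Y.isOpen_iff U).1 hU).2 n B hy
    obtain ⟨k, hkB, hk⟩ := (mad_ad.1 B.1 B.2).exists_notMem_finite h1
    refine ⟨Y.nat n k, ?_, ⟨(n, k), rfl⟩⟩
    by_contra h
    exact hk ⟨hkB, h⟩

/-! ### The product is a `k_R`-space -/

theorem seq_of_k {Z : Type} [TopologicalSpace Z] {f : Z → ℝ}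
    (hf : ∀ K : Set Z, IsCompact K → ContinuousOn f K) {z : ℕ → Z} {a : Z}
    (hz : Tendsto z atTop (𝓝 a)) : Tendsto (fun n => f (z n)) atTop (𝓝 (f a)) := by
  have h1 := hf _ hz.isCompact_insert_range a (mem_insert _ _)
  have h2 : Tendsto z atTop (𝓝[insert a (range z)] a) :=
    tendsto_nhdsWithin_iff.2 ⟨hz, Eventually.of_forall fun n => mem_insert_of_mem _ ⟨n, rfl⟩⟩
  exact h1.tendsto.comp h2

theorem isKR : IsKRSpace (X × Y) := by
  refine ⟨{}, fun f hf => ?_⟩
  have hseq : ∀ (z : ℕ → X × Y) (a : X × Y), Tendsto z atTop (𝓝 a) →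
      Tendsto (fun n => f (z n)) atTop (𝓝 (f a)) := fun z a hz => seq_of_k hf hz
  -- sections are continuous
  have hsec : ∀ x : X, Continuous fun y => f (x, y) := by
    intro x
    apply SeqContinuous.continuous
    intro y a hy
    exact hseq (fun n => (x, y n)) (x, a) (tendsto_const_nhds.prodMk_nhds hy)
  -- uniform estimate along each spine
  have hunif : ∀ ε > 0, ∀ i, ∃ h : ℕ, ∀ m ≥ h, ∀ y : Y,
      |f (X.pt i m, y) - f (X.inf, y)| ≤ ε := by
    intro ε hε i
    by_contra hcon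
    push Not at hcon
    have h1 : ∀ h : ℕ, ∃ m ≥ h, ∃ p : ℕ × ℕ,
        ε < |f (X.pt i m, Y.nat p.1 p.2) - f (X.inf, Y.nat p.1 p.2)| := by
      intro h
      obtain ⟨m, hm, y, hy⟩ := hcon h
      have ho : IsOpen {y : Y | ε < |f (X.pt i m, y) - f (X.inf, y)|} :=
        isOpen_lt continuous_const ((hsec _).sub (hsec _)).abs
      obtain ⟨_, hy', ⟨p, rfl⟩⟩ := dense_iff_inter_open.1 dense_nat _ ho ⟨y, hy⟩
      exact ⟨m, hm, p, hy'⟩
    choose m hm p hp using h1
    obtain ⟨y, φ, hφ, hlim⟩ := exists_subseq p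
    have hmt : Tendsto (fun j => X.pt i (m (φ j))) atTop (𝓝 X.inf) := by
      rw [tendsto_nhds]
      intro U hU hx
      have h2 := (X.isOpen_iff U).1 hU hx i
      have h3 : Tendsto (fun j => m (φ j)) atTop atTop := by
        refine tendsto_atTop_mono (fun j => hm (φ j)) hφ.tendsto_atTop
      exact h3.eventually h2
    have h4 := hseq _ _ (hmt.prodMk_nhds hlim)
    have h5 := hseq _ _ ((tendsto_const_nhds (x := X.inf)).prodMk_nhds hlim)
    have h6 := (h4.sub h5).abs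
    rw [sub_self, abs_zero] at h6
    have h7 := h6.eventually (gt_mem_nhds hε)
    obtain ⟨j, hj⟩ := h7.exists
    exact absurd hj (not_lt.2 (hp (φ j)).le)
  rw [continuous_iff_continuousAt]
  rintro ⟨x, y⟩
  rcases x with _ | ⟨i, m⟩
  · rw [Metric.continuousAt_iff']
    intro ε hε
    -- neighbourhood in `X`
    choose h hh using hunif (ε / 3) (by positivity)
    have hU : IsOpen {x : X | x = X.inf ∨ ∃ i m, h i ≤ m ∧ x = X.pt i m} := by
      rw [X.isOpen_iff]
      intro _ i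
      filter_upwards [eventually_ge_atTop (h i)] with m hm
      exact Or.inr ⟨i, m, hm, rfl⟩
    have hV : ∀ᶠ y' in 𝓝 y, |f (X.inf, y') - f (X.inf, y)| < ε / 3 := by
      have := Metric.continuousAt_iff'.1 ((hsec X.inf).continuousAt (x := y)) (ε / 3) (by positivity)
      simpa [Real.dist_eq] using this
    have hU' : ∀ᶠ x' in 𝓝 X.inf, x' ∈ {x : X | x = X.inf ∨ ∃ i m, h i ≤ m ∧ x = X.pt i m} :=
      hU.mem_nhds (Or.inl rfl)
    rw [nhds_prod_eq]
    filter_upwards [hU'.prod_mk hV] with z hz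
    obtain ⟨x', y'⟩ := z
    obtain ⟨hx', hy'⟩ := hz
    rw [Real.dist_eq]
    rcases hx' with hx' | ⟨i, m, hm, hx'⟩
    · simp only at hx'
      rw [hx']
      simp only at hy'
      linarith
    · simp only at hx' hy'
      rw [hx']
      have h1 := hh i m hm y'
      calc |f (X.pt i m, y') - f (X.inf, y)|
          = |(f (X.pt i m, y') - f (X.inf, y')) + (f (X.inf, y') - f (X.inf, y))| := by ring_nf
        _ ≤ |f (X.pt i m, y') - f (X.inf, y')| + |f (X.inf, y') - f (X.inf, y)| := abs_add_le _ _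
        _ < ε := by linarith
  · -- isolated point of `X`
    have h1 : IsOpen ({X.pt i m} : Set X) := X.isOpen_of_notMem (by simp)
    have h2 : ({X.pt i m} : Set X) ∈ 𝓝 (X.pt i m) := h1.mem_nhds rfl
    have h3 : ∀ᶠ z : X × Y in 𝓝 (X.pt i m, y), z.1 = X.pt i m :=
      (continuous_fst.tendsto (X.pt i m, y)).eventually h2
    have h4 : ContinuousAt (fun z : X × Y => f (X.pt i m, z.2)) (X.pt i m, y) :=
      ((hsec (X.pt i m)).comp continuous_snd).continuousAt
    refine h4.congr ?_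
    filter_upwards [h3] with z hz
    rw [← hz]

/-! ### The product is not a `k`-space -/

/-- a closed discrete set meets a compact set in a finite set -/
theorem finite_inter {Z : Type} [TopologicalSpace Z] {P K : Set Z} (hP : IsClosed P)
    (hd : ∀ x ∈ P, ∃ U, IsOpen U ∧ x ∈ U ∧ U ∩ P ⊆ {x}) (hK : IsCompact K) : (P ∩ K).Finite := by
  have hc : IsCompact (P ∩ K) := hK.inter_left hP
  choose! U hU hxU hUP using hd
  obtain ⟨t, ht, hcov⟩ := hc.elim_nhds_subcover U (fun x hx => (hU x hx.1).mem_nhds (hxU x hx.1))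
  refine t.finite_toSet.subset ?_
  intro x hx
  obtain ⟨y, hy, hxy⟩ := mem_iUnion₂.1 (hcov hx)
  have := hUP y (ht y hy).1 ⟨hxy, hx.1⟩
  rw [mem_singleton_iff] at this
  rw [this]
  exact hy

/-- the bad set -/
def A : Set (X × Y) := range fun p : ℕ × ℕ => (X.pt p.1 p.2, Y.pt p.1 ⟨col p.2, mad_col p.2⟩)

theorem A_inter_finite {K : Set (X × Y)} (hK : IsCompact K) : (A ∩ K).Finite := by
  have hKX : IsCompact (Prod.fst '' K) := hK.image continuous_fst
  have hKY : IsCompact (Prod.snd '' K) := hK.image continuous_snd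
  -- finitely many spines
  have h1 : {i | ∃ m, X.pt i m ∈ Prod.fst '' K}.Finite := by
    set I := {i | ∃ m, X.pt i m ∈ Prod.fst '' K} with hI
    have hch : ∀ i ∈ I, ∃ m, X.pt i m ∈ Prod.fst '' K := fun i hi => hi
    choose! g hg using hch
    set P : Set X := (fun i => X.pt i (g i)) '' I with hP
    have hPc : IsClosed P := by
      rw [← isOpen_compl_iff, X.isOpen_iff]
      intro _ i
      filter_upwards [eventually_gt_atTop (g i)] with m hm
      rintro ⟨j, -, hj⟩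
      cases hj
      exact lt_irrefl _ hm
    have hfin := finite_inter hPc (fun x hx => by
      obtain ⟨i, hi, rfl⟩ := hx
      exact ⟨{X.pt i (g i)}, X.isOpen_of_notMem (by simp), rfl, inter_subset_left⟩) hKX
    refine Set.Finite.of_finite_image (f := fun i => X.pt i (g i)) (hfin.subset ?_) ?_
    · rintro _ ⟨i, hi, rfl⟩
      exact ⟨⟨i, hi, rfl⟩, hg i hi⟩
    · intro a _ b _ h
      simp only [X.pt.injEq] at h
      exact h.1
  -- finitely many points on each level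
  have h2 : ∀ n, {m | Y.pt n ⟨col m, mad_col m⟩ ∈ Prod.snd '' K}.Finite := by
    intro n
    set P : Set Y := range fun B : MAD => Y.pt n B with hP
    have hPc : IsClosed P := by
      rw [← isOpen_compl_iff, Y.isOpen_iff]
      refine ⟨fun _ => ⟨n + 1, fun m hm => ⟨fun k h => ?_, fun C h => ?_⟩⟩, fun m C h => ?_⟩
      · obtain ⟨B, hB⟩ := h
        cases hB
      · obtain ⟨B, hB⟩ := h
        cases hB
        omega
      · refine Set.finite_empty.subset ?_
        rintro k ⟨-, hk⟩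
        rw [notMem_compl_iff] at hk
        obtain ⟨B, hB⟩ := hk
        cases hB
    have hfin := finite_inter hPc (fun x hx => by
      obtain ⟨B, rfl⟩ := hx
      refine ⟨W n B 0, (isClopen_W n B 0).isOpen, Or.inl rfl, ?_⟩
      rintro y ⟨hy | ⟨k, -, hk⟩, ⟨C, rfl⟩⟩
      · exact hy
      · cases hk) hKY
    refine Set.Finite.of_finite_image (f := fun m => Y.pt n ⟨col m, mad_col m⟩)
      (hfin.subset ?_) ?_
    · rintro _ ⟨m, hm, rfl⟩
      exact ⟨⟨_, rfl⟩, hm⟩
    · intro a _ b _ h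
      simp only [Y.pt.injEq, Subtype.mk.injEq, true_and] at h
      exact col_injective h
  have h3 : (⋃ i ∈ {i | ∃ m, X.pt i m ∈ Prod.fst '' K},
      (fun m => ((X.pt i m, Y.pt i ⟨col m, mad_col m⟩) : X × Y)) ''
        {m | Y.pt i ⟨col m, mad_col m⟩ ∈ Prod.snd '' K}).Finite :=
    h1.biUnion fun i _ => (h2 i).image _
  refine h3.subset ?_
  rintro _ ⟨⟨⟨i, m⟩, rfl⟩, hK'⟩
  exact mem_iUnion₂.2 ⟨i, ⟨m, ⟨_, hK', rfl⟩⟩, m, ⟨_, hK', rfl⟩, rfl⟩

theorem not_isK : ¬ IsKSpace (X × Y) := by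
  intro h
  have hA : IsClosed A := by
    apply h
    intro K hK
    refine ⟨A ∩ K, (A_inter_finite hK).isClosed, ?_⟩
    rw [inter_assoc, inter_self]
  have h1 : (X.inf, Y.zero) ∉ A := by
    rintro ⟨p, hp⟩
    cases hp
  have h2 : (X.inf, Y.zero) ∈ closure A := by
    rw [mem_closure_iff_nhds]
    intro T hT
    rw [nhds_prod_eq, mem_prod_iff] at hT
    obtain ⟨U, hU, V, hV, hUV⟩ := hT
    obtain ⟨U', hU'U, hU', hxU'⟩ := mem_nhds_iff.1 hU
    obtain ⟨V', hV'V, hV', hyV'⟩ := mem_nhds_iff.1 hV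
    obtain ⟨N, hN⟩ := ((Y.isOpen_iff V').1 hV').1 hyV'
    obtain ⟨m, hm⟩ := ((X.isOpen_iff U').1 hU' hxU' N).exists
    exact ⟨(X.pt N m, Y.pt N ⟨col m, mad_col m⟩), hUV ⟨hU'U hm, hV'V ((hN N le_rfl).2 _)⟩,
      ⟨(N, m), rfl⟩⟩
  rw [hA.closure_eq] at h2
  exact h1 h2

/-- **MP_a29c66_gt (negated form).** There exist sequential spaces `X`, `Y` such that `X × Y` is
a `k_R`-space but not a `k`-space. -/
theorem result : ∃ (X Y : Type) (_ : TopologicalSpace X) (_ : TopologicalSpace Y),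
    SequentialSpace X ∧ SequentialSpace Y ∧ IsKRSpace (X × Y) ∧ ¬ IsKSpace (X × Y) :=
  ⟨X, Y, inferInstance, inferInstance, inferInstance, inferInstance, isKR, not_isK⟩

end Pool.Agent.Results.MP_a29c66_gt.KRNotK
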